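import Pool.Agent.Helper69.LW.Basic

/-!
# MP_687a20_mp : module GR (ground state representation)
-/

open MeasureTheory Set Filter Topology
open scoped ContDiff

namespace LeakyWire

variable {f u w : ℝ × ℝ → ℝ}

theorem gr_slice {φ φ' : ℝ → ℝ} (hd : ∀ t, HasDerivAt φ (φ' t) t)
    (hi : Integrable (fun t => φ t * φ' t)) (L : ℝ) (hL : ∀ t, L < |t| → φ t = 0) :
    ∫ t in Ioi (0 : ℝ), φ t * φ' t = -(φ 0 ^ 2) / 2 ∧
      ∫ t in Iic (0 : ℝ), φ t * φ' t = φ 0 ^ 2 / 2 := by
  have hF : ∀ t, HasDerivAt (fun t => φ t ^ 2 / 2) (φ t * φ' t) t := by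
    intro t
    have h := ((hd t).pow 2).div_const 2
    refine h.congr_deriv ?_
    norm_num
    ring
  have h1 : Tendsto (fun t => φ t ^ 2 / 2) atTop (𝓝 0) := by
    refine tendsto_const_nhds.congr' ?_
    filter_upwards [eventually_gt_atTop L] with t ht
    rw [hL t (ht.trans_le (le_abs_self t))]
    norm_num
  have h2 : Tendsto (fun t => φ t ^ 2 / 2) atBot (𝓝 0) := by
    refine tendsto_const_nhds.congr' ?_
    filter_upwards [eventually_lt_atBot (-L)] with t ht
    rw [hL t (by
      have := neg_le_abs t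
      linarith)]
    norm_num
  constructor
  · have h3 := integral_Ioi_of_hasDerivAt_of_tendsto (a := 0) (hF 0).continuousAt.continuousWithinAt
      (fun t _ => hF t) hi.integrableOn h1
    rw [h3]
    ring
  · have h3 := integral_Iic_of_hasDerivAt_of_tendsto (a := 0) (hF 0).continuousAt.continuousWithinAt
      (fun t _ => hF t) hi.integrableOn h2
    rw [h3]
    ring

theorem gr_slice_sign {φ φ' : ℝ → ℝ} (hd : ∀ t, HasDerivAt φ (φ' t) t)
    (hi : Integrable (fun t => φ t * φ' t)) (L : ℝ) (hL : ∀ t, L < |t| → φ t = 0) :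
    ∫ t, Real.sign t * (φ t * φ' t) = -(φ 0 ^ 2) := by
  obtain ⟨h1, h2⟩ := gr_slice hd hi L hL
  have hm : AEStronglyMeasurable Real.sign (volume : Measure ℝ) :=
    sign_meas.aestronglyMeasurable
  have hi' : Integrable (fun t => Real.sign t * (φ t * φ' t)) :=
    hi.bdd_mul hm (Eventually.of_forall fun t => by
      rw [Real.norm_eq_abs]
      exact abs_sign_le t)
  rw [← integral_add_compl (measurableSet_Ioi (a := (0 : ℝ))) hi', compl_Ioi]
  have e1 : ∫ t in Ioi (0 : ℝ), Real.sign t * (φ t * φ' t) = ∫ t in Ioi (0 : ℝ), φ t * φ' t :=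
    setIntegral_congr_fun measurableSet_Ioi fun t ht => by
      simp only [Real.sign_of_pos (mem_Ioi.mp ht), one_mul]
  have e2 : ∫ t in Iic (0 : ℝ), Real.sign t * (φ t * φ' t) = -∫ t in Iic (0 : ℝ), φ t * φ' t := by
    rw [integral_Iic_eq_integral_Iio, integral_Iic_eq_integral_Iio, ← integral_neg]
    exact setIntegral_congr_fun measurableSet_Iio fun t ht => by
      simp only [Real.sign_of_neg (mem_Iio.mp ht), neg_one_mul]
  rw [e1, e2, h1, h2]
  ring

theorem gr_ae_ne : ∀ᵐ p : ℝ × ℝ ∂(volume.restrict hp), p.2 ≠ 0 := by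
  have h1 : ∀ᵐ p : ℝ × ℝ, p.2 ≠ 0 := by
    have h2 : (volume : Measure (ℝ × ℝ)) {p | p.2 = 0} = 0 := by
      have e : {p : ℝ × ℝ | p.2 = 0} = univ ×ˢ {0} := by
        ext p
        simp
      rw [e, Measure.volume_eq_prod, Measure.prod_prod]
      simp
    rw [ae_iff]
    simpa using h2
  exact ae_restrict_of_ae h1

theorem ground1 (hu : Test u) :
    (∫ p in hp, d2 u p ^ 2) - ∫ s in Ioi (0 : ℝ), u (s, 0) ^ 2 =
      (∫ p in hp, D u p ^ 2) - N u / 4 := by
  obtain ⟨L, hL0, hL⟩ := hu.box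
  have n0 := hu.nice
  have n2 := hu.test_d2.nice
  have nc : Nice (fun p => u p * d2 u p) := n0.mul n2
  have ns : Nice (fun p => Real.sign p.2 * (u p * d2 u p)) := nc.sign_mul
  have h1 : ∫ p in hp, Real.sign p.2 * (u p * d2 u p) =
      -∫ s in Ioi (0 : ℝ), u (s, 0) ^ 2 := by
    rw [ns.fubini, ← integral_neg]
    refine integral_congr_ae (Eventually.of_forall fun s => ?_)
    exact gr_slice_sign (φ := fun t => u (s, t)) (φ' := fun t => d2 u (s, t))
      (fun t => hasDerivAt_2 hu.diff s t) (nc.slice s) L fun t ht => hL (s, t) (Or.inr ht)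
  have h2 : ∫ p in hp, D u p ^ 2 = (∫ p in hp, d2 u p ^ 2) +
      (∫ p in hp, Real.sign p.2 * (u p * d2 u p)) + (1 / 4) * ∫ p in hp, u p ^ 2 := by
    rw [← integral_const_mul, ← integral_add (n2.sq.integrableOn hp) (ns.integrableOn hp),
      ← integral_add ((n2.sq.add ns).integrableOn hp) ((n0.sq.const_mul (1 / 4)).integrableOn hp)]
    refine integral_congr_ae ?_
    filter_upwards [gr_ae_ne] with p hp'
    unfold D
    rcases lt_or_gt_of_ne hp' with h | h
    · rw [Real.sign_of_neg h]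
      ring
    · rw [Real.sign_of_pos h]
      ring
  rw [h2, h1]
  unfold N
  ring

theorem ground2 (hu : Test u) :
    ∫ p in hp, Real.sign p.2 * (u p * d1 u p) = -(1 / 2) * ∫ t, Real.sign t * u (0, t) ^ 2 := by
  obtain ⟨L, hL0, hL⟩ := hu.box
  have nc : Nice (fun p => u p * d1 u p) := hu.nice.mul hu.test_d1.nice
  have ns : Nice (fun p => Real.sign p.2 * (u p * d1 u p)) := nc.sign_mul
  rw [ns.fubini', ← integral_const_mul]
  refine integral_congr_ae (Eventually.of_forall fun t => ?_)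
  have hc : Integrable (fun s => u (s, t) * d1 u (s, t)) := by
    have h1 : Continuous fun s => u (s, t) * d1 u (s, t) :=
      (hu.cont.comp (continuous_id.prodMk continuous_const)).mul
        (hu.test_d1.cont.comp (continuous_id.prodMk continuous_const))
    refine h1.integrable_of_hasCompactSupport ?_
    refine HasCompactSupport.of_support_subset_isCompact (isCompact_Icc (a := -L) (b := L)) ?_
    intro s hs
    rw [mem_Icc, ← abs_le]
    by_contra h
    apply hs
    change u (s, t) * d1 u (s, t) = 0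
    rw [hL (s, t) (Or.inl (not_le.mp h)), zero_mul]
  have h1 := (gr_slice (φ := fun s => u (s, t)) (φ' := fun s => d1 u (s, t))
      (fun s => hasDerivAt_1 hu.diff s t) hc L fun s hs => hL (s, t) (Or.inl hs)).1
  change ∫ s in Ioi (0 : ℝ), Real.sign t * (u (s, t) * d1 u (s, t)) =
    -(1 / 2) * (Real.sign t * u (0, t) ^ 2)
  rw [integral_const_mul, h1]
  ring

theorem ground (hu : Test u) (τ : ℝ) :
    q τ u + N u / 4 =
      (1 + τ ^ 2) * (∫ p in hp, d1 u p ^ 2) - 2 * τ * (∫ p in hp, d1 u p * D u p) +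
        (∫ p in hp, D u p ^ 2) - τ / 2 * ∫ t, Real.sign t * u (0, t) ^ 2 := by
  have n0 := hu.nice
  have n1 := hu.test_d1.nice
  have n2 := hu.test_d2.nice
  have nD := hu.nice_D
  have n12 : Nice (fun p => d1 u p * d2 u p) := n1.mul n2
  have n1D : Nice (fun p => d1 u p * D u p) := n1.mul nD
  have ns : Nice (fun p => Real.sign p.2 * (u p * d1 u p)) := (n0.mul n1).sign_mul
  have h1 : ∫ p in hp, d1 u p * d2 u p = (∫ p in hp, d1 u p * D u p) -
      (1 / 2) * ∫ p in hp, Real.sign p.2 * (u p * d1 u p) := by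
    rw [← integral_const_mul, ← integral_sub (n1D.integrableOn hp)
      ((ns.const_mul (1 / 2)).integrableOn hp)]
    refine integral_congr_ae (Eventually.of_forall fun p => ?_)
    change d1 u p * d2 u p = d1 u p * D u p - 1 / 2 * (Real.sign p.2 * (u p * d1 u p))
    unfold D
    ring
  have h2 : ∫ p in hp, ((1 + τ ^ 2) * d1 u p ^ 2 - 2 * τ * (d1 u p * d2 u p) + d2 u p ^ 2) =
      (1 + τ ^ 2) * (∫ p in hp, d1 u p ^ 2) - 2 * τ * (∫ p in hp, d1 u p * d2 u p) +
        ∫ p in hp, d2 u p ^ 2 := by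
    have a1 := n1.sq.const_mul (1 + τ ^ 2)
    have a2 := n12.const_mul (2 * τ)
    rw [integral_add ((a1.sub a2).integrableOn hp) (n2.sq.integrableOn hp),
      integral_sub (a1.integrableOn hp) (a2.integrableOn hp), integral_const_mul,
      integral_const_mul]
  have h3 := ground1 hu
  have h4 := ground2 hu
  unfold q
  rw [h2, h1, h4]
  linear_combination h3

end LeakyWire
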